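import Mathlib

set_option autoImplicit false

namespace MP_9dcace_qlb

open Real Finset

/-- angle step -/
noncomputable def dd (k : ℕ) : ℝ := π / k

noncomputable def rr (k : ℕ) (j : ℕ) : Fin 3 → ℝ :=
  ![cos (j * dd k), sin (j * dd k), (-1) ^ j * (1 - cos (dd k))]

noncomputable def AA (k : ℕ) : Fin 3 → ℝ := ![0, 0, 1 + cos (dd k)]
noncomputable def BB (k : ℕ) : Fin 3 → ℝ := ![0, 0, -(1 + cos (dd k))]

lemma dd_pos {k : ℕ} (hk : 3 ≤ k) : 0 < dd k := by
  unfold dd; have : (0:ℝ) < k := by exact_mod_cast (by omega : 0 < k)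
  positivity

lemma k_dd {k : ℕ} (hk : 3 ≤ k) : (k : ℝ) * dd k = π := by
  unfold dd; have : (k:ℝ) ≠ 0 := by exact_mod_cast (by omega : k ≠ 0)
  field_simp

lemma dd_le {k : ℕ} (hk : 3 ≤ k) : dd k ≤ π / 3 := by
  unfold dd
  apply div_le_div_of_nonneg_left pi_pos.le (by norm_num)
  exact_mod_cast hk

lemma cos_dd_ge {k : ℕ} (hk : 3 ≤ k) : 1 / 2 ≤ cos (dd k) := by
  rw [← cos_pi_div_three]
  apply cos_le_cos_of_nonneg_of_le_pi (dd_pos hk).le
  · linarith [pi_pos]
  · exact dd_le hk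

lemma nat_dd_le {k : ℕ} (hk : 3 ≤ k) {n : ℕ} (hn : n ≤ k) : (n : ℝ) * dd k ≤ π := by
  rw [← k_dd hk]
  exact mul_le_mul_of_nonneg_right (by exact_mod_cast hn) (dd_pos hk).le

lemma cos_lt {k : ℕ} (hk : 3 ≤ k) {m n : ℕ} (hmn : m < n) (hn : n ≤ k) :
    cos (n * dd k) < cos (m * dd k) := by
  apply cos_lt_cos_of_nonneg_of_le_pi
  · have := dd_pos hk; positivity
  · exact nat_dd_le hk hn
  · exact mul_lt_mul_of_pos_right (by exact_mod_cast hmn) (dd_pos hk)

lemma cos_dd_lt {k : ℕ} (hk : 3 ≤ k) : cos (dd k) < 1 := by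
  have := cos_lt hk (m := 0) (n := 1) (by norm_num) (by omega)
  simpa using this

lemma cos_add_period {k : ℕ} (hk : 3 ≤ k) (m t : ℤ) :
    cos ((m + t * (2 * k)) * dd k) = cos (m * dd k) := by
  have : ((m:ℝ) + t * (2 * k)) * dd k = m * dd k + t * (2 * π) := by
    rw [← k_dd hk]; ring
  rw [this, cos_add_int_mul_two_pi]

/-- normal form of an integer difference -/
lemma repr {k : ℕ} (hk : 3 ≤ k) (m : ℤ) :
    ∃ n : ℕ, n ≤ k ∧ cos (m * dd k) = cos (n * dd k) ∧ (Even m ↔ Even n) ∧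
      (n = 0 ↔ (2 * k : ℤ) ∣ m) ∧ (n = 1 ↔ ((2 * k : ℤ) ∣ m - 1 ∨ (2 * k : ℤ) ∣ m + 1)) := by
  have h2k : (0:ℤ) < 2 * k := by have : (0:ℤ) < k := by exact_mod_cast (by omega : 0 < k)
                                 omega
  set q := m / (2 * k) with hq
  set r := m % (2 * k) with hr
  have hdecomp : m = r + q * (2 * k) := by
    have := Int.emod_add_mul_ediv m (2 * k); rw [← hr, ← hq] at this; linarith
  have hr0 : 0 ≤ r := Int.emod_nonneg _ h2k.ne'
  have hr1 : r < 2 * k := Int.emod_lt_of_pos _ h2k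
  have hcos : cos (m * dd k) = cos (r * dd k) := by
    rw [← cos_add_period hk r q]
    congr 1; rw [hdecomp]; push_cast; ring
  have hk3 : (3:ℤ) ≤ k := by exact_mod_cast hk
  have hdvd : ∀ a : ℤ, (2 * k : ℤ) ∣ m + a ↔ (2 * k : ℤ) ∣ r + a := by
    intro a
    rw [hdecomp, show r + q * (2 * k) + a = (r + a) + q * (2 * k) by ring]
    exact Int.dvd_add_mul_self
  have hpar : Even m ↔ Even r := by
    rw [hdecomp, Int.even_add]
    have : Even (q * (2 * (k:ℤ))) := ⟨q * k, by ring⟩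
    simp [this]
  rcases le_or_gt r k with hle | hgt
  · obtain ⟨n, hn⟩ := Int.eq_ofNat_of_zero_le hr0
    have hnr : (n:ℤ) = r := hn.symm
    refine ⟨n, by exact_mod_cast (hnr ▸ hle), ?_, ?_, ?_, ?_⟩
    · rw [hcos, hn]; push_cast; rfl
    · rw [hpar, hn]; exact Int.even_coe_nat n
    · have := hdvd 0
      simp only [add_zero] at this
      rw [this]
      constructor
      · intro h; subst h; simp only [Nat.cast_zero] at hnr; rw [← hnr]; exact dvd_zero _
      · intro h
        have := Int.eq_zero_of_dvd_of_nonneg_of_lt hr0 (by linarith) h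
        omega
    · have h1 := hdvd (-1)
      have h2 := hdvd 1
      rw [show m + -1 = m - 1 by ring] at h1
      rw [h1, h2]
      constructor
      · intro h; left; subst h; simp only [Nat.cast_one] at hnr; rw [← hnr]; simp
      · rintro (h | h)
        · rcases eq_or_lt_of_le hr0 with h0 | h0
          · rw [← h0] at h
            have := Int.le_of_dvd (by norm_num) ((dvd_neg).mp (by simpa using h) : (2 * (k:ℤ)) ∣ 1)
            omega
          · have := Int.eq_zero_of_dvd_of_nonneg_of_lt (m := r + -1) (by omega) (by omega) h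
            omega
        · have := Int.le_of_dvd (by omega) h
          omega
  · obtain ⟨n, hn⟩ := Int.eq_ofNat_of_zero_le (show 0 ≤ 2 * (k:ℤ) - r by omega)
    have hnr : (n:ℤ) = 2 * k - r := hn.symm
    refine ⟨n, by omega, ?_, ?_, ?_, ?_⟩
    · rw [hcos]
      have e : (r:ℝ) * dd k = 2 * π - n * dd k := by
        have : (n:ℝ) = 2 * k - r := by exact_mod_cast hnr
        rw [this, ← k_dd hk]; ring
      rw [e, cos_two_pi_sub]
    · rw [hpar, ← Int.even_coe_nat n, hnr, Int.even_sub]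
      have : Even (2 * (k:ℤ)) := even_two_mul _
      simp [this]
    · have := hdvd 0
      simp only [add_zero] at this
      rw [this]
      constructor
      · intro h; omega
      · intro h
        have := Int.eq_zero_of_dvd_of_nonneg_of_lt hr0 (by linarith) h
        omega
    · have h1 := hdvd (-1)
      have h2 := hdvd 1
      rw [show m + -1 = m - 1 by ring] at h1
      rw [h1, h2]
      constructor
      · intro h; right
        have : r + 1 = 2 * k := by omega
        rw [this]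
      · rintro (h | h)
        · have := Int.eq_zero_of_dvd_of_nonneg_of_lt (m := r + -1) (by omega) (by omega) h
          omega
        · have := Int.le_of_dvd (by omega) h
          omega

/-- functional of face `j` -/
noncomputable def ff (k j : ℕ) : Fin 3 → ℝ := ![cos (j * dd k), sin (j * dd k), -((-1) ^ j / 2)]

lemma sum3 (a x : Fin 3 → ℝ) : ∑ i, a i * x i = a 0 * x 0 + a 1 * x 1 + a 2 * x 2 := by
  rw [Fin.sum_univ_three]

lemma ff_rr (k j i : ℕ) : ∑ t, ff k j t * rr k i t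
    = cos (((i:ℤ) - (j:ℤ) : ℤ) * dd k) - (-1) ^ (i + j) * (1 - cos (dd k)) / 2 := by
  rw [sum3]
  simp only [ff, rr, Matrix.cons_val_zero, Matrix.cons_val_one, Matrix.cons_val]
  push_cast
  rw [sub_mul, cos_sub, pow_add]
  ring

lemma ff_AA (k j : ℕ) : ∑ t, ff k j t * AA k t = -((-1) ^ j / 2) * (1 + cos (dd k)) := by
  rw [sum3]
  simp only [ff, AA, Matrix.cons_val_zero, Matrix.cons_val_one, Matrix.cons_val]
  ring

lemma ff_BB (k j : ℕ) : ∑ t, ff k j t * BB k t = ((-1) ^ j / 2) * (1 + cos (dd k)) := by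
  rw [sum3]
  simp only [ff, BB, Matrix.cons_val_zero, Matrix.cons_val_one, Matrix.cons_val]
  ring

lemma ff_rr_le {k : ℕ} (hk : 3 ≤ k) (j i : ℕ) :
    (∑ t, ff k j t * rr k i t ≤ (1 + cos (dd k)) / 2) ∧
    (∑ t, ff k j t * rr k i t = (1 + cos (dd k)) / 2 ↔
      ((2 * k : ℤ) ∣ (i:ℤ) - j ∨ (2 * k : ℤ) ∣ (i:ℤ) - j - 1 ∨ (2 * k : ℤ) ∣ (i:ℤ) - j + 1)) := by
  rw [ff_rr]
  obtain ⟨n, hn, hc, hpar, h0, h1⟩ := repr hk ((i:ℤ) - j)
  have hpar' : ((-1:ℝ)) ^ (i + j) = (-1) ^ n := by
    have e1 : Even ((i:ℤ) - j) ↔ Even (i + j) := by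
      rw [Int.even_sub, Nat.even_add, Int.even_coe_nat, Int.even_coe_nat]
    rw [e1] at hpar
    rcases Nat.even_or_odd n with h | h
    · rw [h.neg_one_pow, (hpar.mpr h).neg_one_pow]
    · rw [h.neg_one_pow]
      have : Odd (i + j) := by
        rw [← Nat.not_even_iff_odd]; intro h'
        exact (Nat.not_even_iff_odd.mpr h) (hpar.mp h')
      rw [this.neg_one_pow]
  rw [hc, hpar']
  have hlt := cos_dd_lt hk
  rw [← h0, ← h1]
  rcases Nat.lt_or_ge n 2 with h2 | h2
  · interval_cases n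
    · rw [Nat.cast_zero, zero_mul, cos_zero, pow_zero]
      exact ⟨by linarith, ⟨fun _ => Or.inl rfl, fun _ => by ring⟩⟩
    · rw [Nat.cast_one, one_mul, pow_one]
      exact ⟨by linarith, ⟨fun _ => Or.inr rfl, fun _ => by ring⟩⟩
  · rcases Nat.even_or_odd n with h | h
    · rw [h.neg_one_pow]
      have : cos (n * dd k) < 1 := by
        have := cos_lt hk (m := 0) (n := n) (by omega) hn
        simpa using this
      exact ⟨by linarith, ⟨fun hh => by linarith, fun hh => by omega⟩⟩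
    · rw [h.neg_one_pow]
      have : cos (n * dd k) < cos (dd k) := by
        have := cos_lt hk (m := 1) (n := n) (by omega) hn
        simpa using this
      exact ⟨by linarith, ⟨fun hh => by linarith, fun hh => by omega⟩⟩

lemma rr_eq_iff {k : ℕ} (hk : 3 ≤ k) (i j : ℕ) : rr k i = rr k j ↔ (2 * k : ℤ) ∣ (i:ℤ) - j := by
  constructor
  · intro h
    obtain ⟨n, hn, hc, hpar, h0, h1⟩ := repr hk ((i:ℤ) - j)
    rw [← h0]
    have e0 : cos (i * dd k) = cos (j * dd k) := by
      have := congrFun h 0; simpa [rr] using this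
    have e1 : sin (i * dd k) = sin (j * dd k) := by
      have := congrFun h 1; simpa [rr] using this
    have : cos (((i:ℤ) - (j:ℤ) : ℤ) * dd k) = 1 := by
      push_cast
      rw [sub_mul, cos_sub, e0, e1]
      nlinarith [sin_sq_add_cos_sq ((j:ℝ) * dd k)]
    rw [this] at hc
    by_contra hne
    have := cos_lt hk (m := 0) (n := n) (by omega) hn
    simp at this; linarith
  · rintro ⟨t, ht⟩
    have hi : (i:ℤ) = j + t * (2 * k) := by linarith
    have hi' : (i:ℝ) = j + t * (2 * k) := by exact_mod_cast hi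
    have hang : (i:ℝ) * dd k = j * dd k + t * (2 * π) := by
      rw [hi', ← k_dd hk]; ring
    have hp : ((-1:ℝ)) ^ i = (-1) ^ j := by
      have e1 : Even (i:ℤ) ↔ Even (j:ℤ) := by
        rw [hi, Int.even_add]
        have : Even (t * (2 * (k:ℤ))) := ⟨t * k, by ring⟩
        simp [this]
      rw [Int.even_coe_nat, Int.even_coe_nat] at e1
      rcases Nat.even_or_odd j with h | h
      · rw [h.neg_one_pow, (e1.mpr h).neg_one_pow]
      · rw [h.neg_one_pow]
        have : Odd i := by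
          rw [← Nat.not_even_iff_odd]; intro h'
          exact (Nat.not_even_iff_odd.mpr h) (e1.mp h')
        rw [this.neg_one_pow]
    unfold rr
    rw [hang, hp, cos_add_int_mul_two_pi, sin_add_int_mul_two_pi]

lemma rr_eq_iff_mod {k : ℕ} (hk : 3 ≤ k) (i j : ℕ) :
    rr k i = rr k j ↔ i % (2 * k) = j % (2 * k) := by
  rw [rr_eq_iff hk]
  constructor
  · intro h
    have : (j:ℤ) ≡ (i:ℤ) [ZMOD ((2 * k : ℕ) : ℤ)] := by
      rw [Int.modEq_iff_dvd]; exact_mod_cast h
    exact ((Int.natCast_modEq_iff.mp this).symm)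
  · intro h
    have : j ≡ i [MOD (2 * k)] := h.symm
    have := Int.natCast_modEq_iff.mpr this
    rw [Int.modEq_iff_dvd] at this
    exact_mod_cast this

lemma rr_ne_AA {k : ℕ} (_hk : 3 ≤ k) (j : ℕ) : rr k j ≠ AA k := by
  intro h
  have e0 : cos (j * dd k) = 0 := by have := congrFun h 0; simpa [rr, AA] using this
  have e1 : sin (j * dd k) = 0 := by have := congrFun h 1; simpa [rr, AA] using this
  have := sin_sq_add_cos_sq ((j:ℝ) * dd k)
  rw [e0, e1] at this; norm_num at this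

lemma rr_ne_BB {k : ℕ} (_hk : 3 ≤ k) (j : ℕ) : rr k j ≠ BB k := by
  intro h
  have e0 : cos (j * dd k) = 0 := by have := congrFun h 0; simpa [rr, BB] using this
  have e1 : sin (j * dd k) = 0 := by have := congrFun h 1; simpa [rr, BB] using this
  have := sin_sq_add_cos_sq ((j:ℝ) * dd k)
  rw [e0, e1] at this; norm_num at this

lemma AA_ne_BB {k : ℕ} (hk : 3 ≤ k) : AA k ≠ BB k := by
  intro h
  have := congrFun h 2
  simp only [AA, BB, Matrix.cons_val] at this
  have := cos_dd_ge hk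
  linarith

/-- vertex set -/
noncomputable def VV (k : ℕ) : Finset (Fin 3 → ℝ) :=
  insert (AA k) (insert (BB k) ((range (2 * k)).image (rr k)))

lemma mem_VV {k : ℕ} (x : Fin 3 → ℝ) :
    x ∈ VV k ↔ x = AA k ∨ x = BB k ∨ ∃ j < 2 * k, x = rr k j := by
  simp only [VV, mem_insert, mem_image, mem_range, eq_comm (a := x)]

lemma rr_mem {k : ℕ} (hk : 3 ≤ k) (j : ℕ) : rr k j ∈ VV k := by
  rw [mem_VV]
  right; right
  refine ⟨j % (2 * k), Nat.mod_lt _ (by omega), ?_⟩
  rw [rr_eq_iff_mod hk, Nat.mod_mod]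

lemma card_VV {k : ℕ} (hk : 3 ≤ k) : (VV k).card = 2 * k + 2 := by
  unfold VV
  rw [card_insert_of_notMem, card_insert_of_notMem, card_image_of_injOn, card_range]
  · intro i hi j hj h
    simp only [coe_range, Set.mem_Iio] at hi hj
    rw [rr_eq_iff_mod hk, Nat.mod_eq_of_lt hi, Nat.mod_eq_of_lt hj] at h
    exact h
  · simp only [mem_image, mem_range, not_exists, not_and]
    exact fun j _ => rr_ne_BB hk j
  · simp only [mem_insert, mem_image, mem_range, not_or, not_exists, not_and]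
    exact ⟨AA_ne_BB hk, fun j _ => rr_ne_AA hk j⟩

/-- a strictly exposed point is not in the hull of the others -/
lemma not_mem_hull (V : Finset (Fin 3 → ℝ)) (v : Fin 3 → ℝ) (a : Fin 3 → ℝ)
    (h : ∀ x ∈ V, x ≠ v → ∑ i, a i * x i < ∑ i, a i * v i) :
    v ∉ convexHull ℝ ((V : Set (Fin 3 → ℝ)) \ {v}) := by
  intro hv
  have hconv : Convex ℝ {x : Fin 3 → ℝ | ∑ i, a i * x i < ∑ i, a i * v i} := by
    intro x hx y hy s t hs ht hst
    change ∑ i, a i * x i < ∑ i, a i * v i at hx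
    change ∑ i, a i * y i < ∑ i, a i * v i at hy
    change ∑ i, a i * (s • x + t • y) i < ∑ i, a i * v i
    have e : ∑ i, a i * (s • x + t • y) i = s * ∑ i, a i * x i + t * ∑ i, a i * y i := by
      simp only [Fin.sum_univ_three, Pi.add_apply, Pi.smul_apply, smul_eq_mul]; ring
    rw [e]
    rcases eq_or_lt_of_le hs with h0 | h0
    · rw [← h0] at hst ⊢; simp only [zero_add] at hst; rw [hst]; linarith
    · have h1 := mul_lt_mul_of_pos_left hx h0
      have h2 := mul_le_mul_of_nonneg_left hy.le ht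
      have h3 : s * ∑ i, a i * v i + t * ∑ i, a i * v i = ∑ i, a i * v i := by
        rw [← add_mul, hst, one_mul]
      linarith
  have := convexHull_min (s := (V : Set (Fin 3 → ℝ)) \ {v}) (fun x hx => h x hx.1 hx.2) hconv hv
  change ∑ i, a i * v i < ∑ i, a i * v i at this
  exact lt_irrefl _ this

lemma conv_pos {k : ℕ} (hk : 3 ≤ k) : ∀ v ∈ VV k,
    v ∉ convexHull ℝ ((VV k : Set (Fin 3 → ℝ)) \ {v}) := by
  intro v hv
  have hc1 := cos_dd_ge hk
  have hc2 := cos_dd_lt hk
  have hz : ∀ j, |rr k j 2| ≤ 1 - cos (dd k) := by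
    intro j
    simp only [rr, Matrix.cons_val, abs_mul, abs_pow, abs_neg, abs_one, one_pow, one_mul]
    rw [abs_of_pos (by linarith)]
  rw [mem_VV] at hv
  rcases hv with rfl | rfl | ⟨j, hj, rfl⟩
  · apply not_mem_hull _ _ ![0, 0, 1]
    intro x hx hne
    rw [mem_VV] at hx
    rw [sum3, sum3]
    simp only [Matrix.cons_val_zero, Matrix.cons_val_one, Matrix.cons_val, zero_mul, zero_add, one_mul]
    rcases hx with rfl | rfl | ⟨i, hi, rfl⟩
    · exact absurd rfl hne
    · simp only [AA, BB, Matrix.cons_val]; linarith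
    · have := (abs_le.mp (hz i)).2
      simp only [AA, Matrix.cons_val]; linarith
  · apply not_mem_hull _ _ ![0, 0, -1]
    intro x hx hne
    rw [mem_VV] at hx
    rw [sum3, sum3]
    simp only [Matrix.cons_val_zero, Matrix.cons_val_one, Matrix.cons_val, zero_mul, zero_add, neg_one_mul]
    rcases hx with rfl | rfl | ⟨i, hi, rfl⟩
    · simp only [AA, BB, Matrix.cons_val]; linarith
    · exact absurd rfl hne
    · have := (abs_le.mp (hz i)).1
      simp only [BB, Matrix.cons_val]; linarith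
  · apply not_mem_hull _ _ ![cos (j * dd k), sin (j * dd k), 0]
    intro x hx hne
    rw [mem_VV] at hx
    rw [sum3, sum3]
    simp only [Matrix.cons_val_zero, Matrix.cons_val_one, Matrix.cons_val, zero_mul, add_zero]
    have hself : cos (j * dd k) * rr k j 0 + sin (j * dd k) * rr k j 1 = 1 := by
      simp only [rr, Matrix.cons_val_zero, Matrix.cons_val_one]
      nlinarith [sin_sq_add_cos_sq ((j:ℝ) * dd k)]
    rw [hself]
    rcases hx with rfl | rfl | ⟨i, hi, rfl⟩
    · simp [AA]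
    · simp [BB]
    · have hne' : ¬ (2 * k : ℤ) ∣ (i:ℤ) - j := by rwa [← rr_eq_iff hk]
      obtain ⟨n, hn, hc, hpar, h0, h1⟩ := repr hk ((i:ℤ) - j)
      have hn0 : n ≠ 0 := fun h => hne' (h0.mp h)
      have hlt := cos_lt hk (m := 0) (n := n) (by omega) hn
      have e : cos (j * dd k) * rr k i 0 + sin (j * dd k) * rr k i 1
          = cos (((i:ℤ) - (j:ℤ) : ℤ) * dd k) := by
        simp only [rr, Matrix.cons_val_zero, Matrix.cons_val_one]
        push_cast
        rw [sub_mul, cos_sub]; ring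
      rw [e, hc]
      simpa using hlt

lemma span_top {k : ℕ} (hk : 3 ≤ k) : affineSpan ℝ (VV k : Set (Fin 3 → ℝ)) = ⊤ := by
  have hA : AA k ∈ (VV k : Set (Fin 3 → ℝ)) := by
    rw [mem_coe, mem_VV]; exact Or.inl rfl
  have hB : BB k ∈ (VV k : Set (Fin 3 → ℝ)) := by
    rw [mem_coe, mem_VV]; exact Or.inr (Or.inl rfl)
  have h0 : rr k 0 ∈ (VV k : Set (Fin 3 → ℝ)) := rr_mem hk 0
  have h1 : rr k 1 ∈ (VV k : Set (Fin 3 → ℝ)) := rr_mem hk 1
  rw [AffineSubspace.affineSpan_eq_top_iff_vectorSpan_eq_top_of_nonempty _ _ _ ⟨_, hA⟩]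
  set W := vectorSpan ℝ (VV k : Set (Fin 3 → ℝ)) with hW
  have hc1 := cos_dd_ge hk
  have hs : 0 < sin (dd k) := sin_pos_of_pos_of_lt_pi (dd_pos hk) (by
    have := dd_le hk; linarith [pi_pos])
  have w1 : AA k - BB k ∈ W := vsub_mem_vectorSpan ℝ hA hB
  have w2 : rr k 0 - AA k ∈ W := vsub_mem_vectorSpan ℝ h0 hA
  have w3 : rr k 1 - AA k ∈ W := vsub_mem_vectorSpan ℝ h1 hA
  have e3 : (![0, 0, 1] : Fin 3 → ℝ) ∈ W := by
    have := W.smul_mem (1 / (2 * (1 + cos (dd k)))) w1
    convert this using 1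
    have hne : (1 + cos (dd k)) ≠ 0 := by linarith
    ext i; fin_cases i
    · simp [AA, BB]
    · simp [AA, BB]
    · simp only [AA, BB, Pi.smul_apply, Pi.sub_apply, smul_eq_mul, Fin.reduceFinMk, Matrix.cons_val]
      field_simp; ring
  have e1 : (![1, 0, 0] : Fin 3 → ℝ) ∈ W := by
    have := W.add_mem w2 (W.smul_mem (-(rr k 0 2 - AA k 2)) e3)
    convert this using 1
    ext i; fin_cases i
    · simp [rr, AA]
    · simp [rr, AA]
    · simp [rr, AA]; ring
  have e2 : (![0, 1, 0] : Fin 3 → ℝ) ∈ W := by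
    have := W.smul_mem (1 / sin (dd k)) (W.add_mem (W.add_mem w3 (W.smul_mem (-(rr k 1 2 - AA k 2)) e3))
      (W.smul_mem (-(rr k 1 0)) e1))
    convert this using 1
    ext i; fin_cases i
    · simp [rr, AA]
    · simp only [rr, AA, Pi.smul_apply, Pi.add_apply, Pi.sub_apply, smul_eq_mul, Fin.mk_one,
        Matrix.cons_val_one, Nat.cast_one, one_mul]
      simp; field_simp
    · simp [rr, AA]
  rw [eq_top_iff]
  intro x _
  have : x = x 0 • (![1, 0, 0] : Fin 3 → ℝ) + x 1 • (![0, 1, 0] : Fin 3 → ℝ)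
      + x 2 • (![0, 0, 1] : Fin 3 → ℝ) := by
    ext i; fin_cases i <;> simp
  rw [this]
  exact W.add_mem (W.add_mem (W.smul_mem _ e1) (W.smul_mem _ e2)) (W.smul_mem _ e3)

theorem trap_exists (k : ℕ) (hk : 3 ≤ k) :
    ∃ (V : Finset (Fin 3 → ℝ)) (A B : Fin 3 → ℝ) (r : ℕ → Fin 3 → ℝ),
      V.card = 2 * k + 2 ∧
      (∀ v ∈ V, v ∉ convexHull ℝ ((V : Set (Fin 3 → ℝ)) \ {v})) ∧
      affineSpan ℝ (V : Set (Fin 3 → ℝ)) = ⊤ ∧
      (∀ x, x ∈ V ↔ x = A ∨ x = B ∨ ∃ j < 2 * k, x = r j) ∧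
      A ≠ B ∧ (∀ j, r j ≠ A ∧ r j ≠ B) ∧
      (∀ i j, r i = r j ↔ i % (2 * k) = j % (2 * k)) ∧
      (∀ j, ∃ a : Fin 3 → ℝ, ∃ c : ℝ, (∀ x ∈ V, ∑ i, a i * x i ≤ c) ∧
        ∀ x ∈ V, (∑ i, a i * x i = c ↔
          (x = (if (j + 1) % 2 = 0 then B else A) ∨ x = r j ∨ x = r (j + 1) ∨ x = r (j + 2)))) := by
  refine ⟨VV k, AA k, BB k, rr k, card_VV hk, conv_pos hk, span_top hk, mem_VV, AA_ne_BB hk,
    fun j => ⟨rr_ne_AA hk j, rr_ne_BB hk j⟩, rr_eq_iff_mod hk, ?_⟩
  intro j
  have hc1 := cos_dd_ge hk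
  have hc2 := cos_dd_lt hk
  refine ⟨ff k (j + 1), (1 + cos (dd k)) / 2, ?_, ?_⟩
  · intro x hx
    rw [mem_VV] at hx
    rcases hx with rfl | rfl | ⟨i, hi, rfl⟩
    · rw [ff_AA]
      rcases neg_one_pow_eq_or ℝ (j + 1) with h | h <;> rw [h] <;> linarith
    · rw [ff_BB]
      rcases neg_one_pow_eq_or ℝ (j + 1) with h | h <;> rw [h] <;> linarith
    · exact (ff_rr_le hk (j + 1) i).1
  · intro x hx
    rw [mem_VV] at hx
    rcases hx with rfl | rfl | ⟨i, hi, rfl⟩
    · rw [ff_AA]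
      have hA : (AA k = rr k j ∨ AA k = rr k (j + 1) ∨ AA k = rr k (j + 2)) ↔ False := by
        simp only [iff_false, not_or]
        exact ⟨(rr_ne_AA hk _).symm, (rr_ne_AA hk _).symm, (rr_ne_AA hk _).symm⟩
      rw [hA, or_false]
      by_cases hp : (j + 1) % 2 = 0
      · rw [if_pos hp]
        have : Even (j + 1) := Nat.even_iff.mpr hp
        rw [this.neg_one_pow]
        constructor
        · intro h; exfalso; linarith
        · intro h; exact absurd h (AA_ne_BB hk)
      · rw [if_neg hp]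
        have : Odd (j + 1) := Nat.odd_iff.mpr (by omega)
        rw [this.neg_one_pow]
        simp; ring
    · rw [ff_BB]
      have hA : (BB k = rr k j ∨ BB k = rr k (j + 1) ∨ BB k = rr k (j + 2)) ↔ False := by
        simp only [iff_false, not_or]
        exact ⟨(rr_ne_BB hk _).symm, (rr_ne_BB hk _).symm, (rr_ne_BB hk _).symm⟩
      rw [hA, or_false]
      by_cases hp : (j + 1) % 2 = 0
      · rw [if_pos hp]
        have : Even (j + 1) := Nat.even_iff.mpr hp
        rw [this.neg_one_pow]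
        simp; ring
      · rw [if_neg hp]
        have : Odd (j + 1) := Nat.odd_iff.mpr (by omega)
        rw [this.neg_one_pow]
        constructor
        · intro h; exfalso; linarith
        · intro h; exact absurd h.symm (AA_ne_BB hk)
    · rw [(ff_rr_le hk (j + 1) i).2]
      have hX : rr k i ≠ (if (j + 1) % 2 = 0 then BB k else AA k) := by
        split_ifs
        · exact rr_ne_BB hk i
        · exact rr_ne_AA hk i
      rw [rr_eq_iff hk, rr_eq_iff hk, rr_eq_iff hk]
      have e1 : (i:ℤ) - ((j + 1 : ℕ) : ℤ) + 1 = (i:ℤ) - (j:ℕ) := by push_cast; ring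
      have e2 : (i:ℤ) - ((j + 1 : ℕ) : ℤ) - 1 = (i:ℤ) - ((j + 2 : ℕ) : ℤ) := by push_cast; ring
      rw [e1, e2]
      constructor
      · rintro (h | h | h)
        · exact Or.inr (Or.inr (Or.inl h))
        · exact Or.inr (Or.inr (Or.inr h))
        · exact Or.inr (Or.inl h)
      · rintro (h | h | h | h)
        · exact absurd h hX
        · exact Or.inr (Or.inr h)
        · exact Or.inl h
        · exact Or.inr (Or.inl h)

end MP_9dcace_qlb
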